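import Mathlib

namespace Pool.Agent.Results.MP_d9dcf6_co.Cex

open Finset

variable {n m : ℕ}

/-- The `i`-th column as a real vector. -/
def col (v : Fin m → Fin n → ℤ) (i : Fin m) : Fin n → ℝ := fun k => v i k

/-- The cone spanned by the columns indexed by `S`. -/
def cone (v : Fin m → Fin n → ℤ) (S : Finset (Fin m)) : Set (Fin n → ℝ) :=
  {x | ∃ t : Fin m → ℝ, (∀ i, 0 ≤ t i) ∧ x = ∑ i ∈ S, t i • col v i}

def IsF (v : Fin m → Fin n → ℤ) : Prop :=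
  Submodule.span ℝ (Set.range (col v)) = ⊤ ∧ (∀ i, v i ≠ 0) ∧
  (∀ i j, i ≠ j → ∀ c : ℝ, 0 < c → col v i ≠ c • col v j) ∧ cone v univ = Set.univ ∧
  ∀ i, univ.gcd (v i) = 1

def InM (v : Fin m → Fin n → ℤ) (S : Finset (Fin m)) : Prop :=
  S.card = n ∧ LinearIndependent ℝ (fun i : S => col v i) ∧ ∀ k, col v k ∈ cone v S → k ∈ S

def Pseudofan (v : Fin m → Fin n → ℤ) (C : Finset (Finset (Fin m))) : Prop :=
  (∀ S ∈ C, InM v S) ∧ (∀ k, ∃ S ∈ C, k ∈ S) ∧ ∀ S ∈ C, ∀ i ∈ S,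
    (∃! T, T ∈ C ∧ T ≠ S ∧ S.erase i ⊆ T) ∧ ∀ T ∈ C, T ≠ S → S.erase i ⊆ T →
      ∃ φ : (Fin n → ℝ) →ₗ[ℝ] ℝ, (∀ j ∈ S.erase i, φ (col v j) = 0) ∧ 0 < φ (col v i) ∧
        ∀ x ∈ cone v T, φ x ≤ 0

def dot (u w : Fin 4 → ℤ) : ℤ := u 0 * w 0 + u 1 * w 1 + u 2 * w 2 + u 3 * w 3

def fn (u : Fin 4 → ℤ) : (Fin 4 → ℝ) →ₗ[ℝ] ℝ where
  toFun x := u 0 * x 0 + u 1 * x 1 + u 2 * x 2 + u 3 * x 3
  map_add' x y := by simp; ring
  map_smul' c x := by simp; ring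

lemma fn_col (v : Fin m → Fin 4 → ℤ) (u : Fin 4 → ℤ) (i : Fin m) :
    fn u (col v i) = dot u (v i) := by simp [fn, col, dot]

lemma fn_sum {v : Fin m → Fin 4 → ℤ} {S : Finset (Fin m)} {u : Fin 4 → ℤ} {i : Fin m} (hi : i ∈ S)
    (h : ∀ j ∈ S.erase i, dot u (v j) = 0) (t : Fin m → ℝ) :
    fn u (∑ j ∈ S, t j • col v j) = t i * dot u (v i) := by
  rw [map_sum, ← add_sum_erase _ _ hi, sum_eq_zero fun j hj => by simp [fn_col, h j hj]]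
  simp [fn_col]

lemma li {v : Fin m → Fin 4 → ℤ} {S : Finset (Fin m)} (u : Fin m → Fin 4 → ℤ)
    (h : ∀ i ∈ S, (∀ j ∈ S.erase i, dot (u i) (v j) = 0) ∧ 0 < dot (u i) (v i)) :
    LinearIndependent ℝ (fun i : S => col v i) := by
  rw [Fintype.linearIndependent_iff]
  intro g hg i
  have h1 := fn_sum i.2 (h i i.2).1 (fun j => if hj : j ∈ S then g ⟨j, hj⟩ else 0)
  rw [← sum_coe_sort] at h1
  simp only [coe_mem, dif_pos, Subtype.coe_eta, hg, map_zero] at h1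
  exact (mul_eq_zero.1 h1.symm).resolve_right (by exact_mod_cast (h i i.2).2.ne')

lemma spans {v : Fin m → Fin 4 → ℤ} {S : Finset (Fin m)} (h : InM v S) (x : Fin 4 → ℝ) :
    ∃ t : Fin m → ℝ, x = ∑ i ∈ S, t i • col v i := by
  haveI : Nonempty S := (card_pos.1 (by rw [h.1]; norm_num)).to_subtype
  have h1 := h.2.1.span_eq_top_of_card_eq_finrank (by simp [h.1])
  obtain ⟨c, hc⟩ := (Submodule.mem_span_range_iff_exists_fun ℝ).1 (h1 ▸ Submodule.mem_top (x := x))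
  refine ⟨fun j => if hj : j ∈ S then c ⟨j, hj⟩ else 0, ?_⟩
  rw [← sum_coe_sort, ← hc]
  simp

lemma int {v : Fin m → Fin 4 → ℤ} {S : Finset (Fin m)} (hS : InM v S) (u : Fin m → Fin 4 → ℤ)
    (h : ∀ i ∈ S, (∀ j ∈ S.erase i, dot (u i) (v j) = 0) ∧ 0 < dot (u i) (v i)) (p : Fin 4 → ℤ)
    (hp : ∀ i ∈ S, 0 < dot (u i) p) : (fun k => (p k : ℝ)) ∈ interior (cone v S) := by
  refine mem_interior.2 ⟨⋂ i ∈ S, {x | 0 < fn (u i) x}, fun x hx => ?_, isOpen_biInter_finset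
    fun i _ => isOpen_lt continuous_const (fn (u i)).continuous_of_finiteDimensional, ?_⟩
  · obtain ⟨t, rfl⟩ := spans hS x
    refine ⟨fun i => max (t i) 0, fun i => le_max_right _ _, sum_congr rfl fun i hi => ?_⟩
    have h1 : 0 < fn (u i) _ := Set.mem_iInter₂.1 hx i hi
    rw [fn_sum hi (h i hi).1] at h1
    simp only [max_eq_left ((mul_pos_iff_of_pos_right (by exact_mod_cast (h i hi).2)).1 h1).le]
  · refine Set.mem_iInter₂.2 fun i hi => ?_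
    have := fn_col (fun _ : Fin 1 => p) (u i) 0
    exact (this ▸ Int.cast_pos.2 (hp i hi) : (0 : ℝ) < fn (u i) (col (fun _ : Fin 1 => p) 0))

def V (i : Fin 10) (k : Fin 4) : ℤ := [1, 1, 1, -1, 2, -1, 1, -1, -1, 0, -2, -1, 0, -1, 2, 2,
  -2, 0, 0, -1, -1, 1, -1, 2, 2, -1, 0, 0, -1, 2, -2, 0, -1, 0, 2, 2, -1, -2, 0, -1].getD
  (4 * i + k) 0

def LL : List (List (Fin 10)) := [ [0, 1, 3, 4], [0, 1, 3, 7], [0, 1, 4, 7], [0, 3, 4, 8],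
  [1, 3, 4, 9], [0, 3, 7, 8], [1, 3, 5, 7], [0, 4, 5, 7], [1, 4, 7, 9], [0, 2, 4, 8], [2, 3, 4, 8],
  [1, 2, 3, 9], [2, 3, 4, 9], [0, 2, 7, 8], [3, 5, 7, 8], [1, 2, 5, 7], [1, 3, 5, 6], [0, 4, 5, 9],
  [0, 5, 6, 7], [4, 5, 7, 9], [1, 2, 7, 9], [0, 2, 4, 6], [2, 3, 6, 8], [1, 2, 3, 6], [2, 4, 6, 9],
  [0, 2, 6, 7], [2, 5, 7, 8], [3, 5, 8, 9], [1, 2, 5, 6], [3, 5, 6, 9], [0, 4, 6, 9], [0, 5, 8, 9],
  [0, 5, 6, 8], [5, 6, 7, 9], [2, 6, 7, 9], [2, 5, 6, 8], [3, 6, 8, 9], [0, 1, 6, 9], [0, 1, 8, 9],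
  [0, 1, 6, 8], [1, 6, 8, 9] ]

def d3 (a b c : Fin 4 → ℤ) (i j k : Fin 4) : ℤ :=
  a i * (b j * c k - b k * c j) - a j * (b i * c k - b k * c i) + a k * (b i * c j - b j * c i)

def W (S : List (Fin 10)) (i : Fin 10) : Fin 4 → ℤ :=
  let l := S.filter (fun j => j ≠ i)
  let a := V (l.getD 0 0)
  let b := V (l.getD 1 0)
  let c := V (l.getD 2 0)
  let u : Fin 4 → ℤ := fun k =>
    [d3 a b c 1 2 3, -d3 a b c 0 2 3, d3 a b c 0 1 3, -d3 a b c 0 1 2].getD k 0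
  if 0 < dot u (V i) then u else -u

lemma e1 : ∀ S ∈ LL, S.Nodup ∧ S.length = 4 ∧ (∀ i ∈ S, (∀ j ∈ S, j ≠ i → dot (W S i) (V j) = 0) ∧
    0 < dot (W S i) (V i)) ∧ (∀ k, k ∉ S → ∃ i ∈ S, dot (W S i) (V k) < 0) ∧
    ∀ T ∈ LL, (∀ j ∈ S, j ∈ T) → S = T := by decide +kernel

lemma e2 : ∀ S ∈ LL, ∀ i ∈ S, ∃ T ∈ LL, T ≠ S ∧ (∀ j ∈ S, j ≠ i → j ∈ T) ∧
    (∀ j ∈ T, dot (W S i) (V j) ≤ 0) ∧
    ∀ T' ∈ LL, (∀ j ∈ S, j ≠ i → j ∈ T') → T' = S ∨ T' = T := by decide +kernel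

lemma e3 : ∀ S ∈ LL, S = [0, 1, 3, 4] ∨ ∃ T ∈ LL, LL.idxOf T < LL.idxOf S ∧
    (∃ i ∈ S, ∀ j ∈ S, j ≠ i → j ∈ T) ∧ ∃ i ∈ T, ∀ j ∈ T, j ≠ i → j ∈ S := by decide +kernel

def CL : List (Finset (Fin 10)) := LL.map List.toFinset

noncomputable def lst (S : Finset (Fin 10)) : List (Fin 10) :=
  Classical.epsilon fun l => l ∈ LL ∧ l.toFinset = S

lemma lst_eq {l : List (Fin 10)} (h : l ∈ LL) : lst l.toFinset = l := by
  have h1 := Classical.epsilon_spec (p := fun l' => l' ∈ LL ∧ l'.toFinset = l.toFinset) ⟨l, h, rfl⟩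
  exact (e1 _ h1.1).2.2.2.2 l h fun j hj => by
    rw [← List.mem_toFinset, ← h1.2, List.mem_toFinset]; exact hj

noncomputable def U (S : Finset (Fin 10)) : Fin 10 → Fin 4 → ℤ := W (lst S)

lemma sub {S T : List (Fin 10)} {i : Fin 10} :
    S.toFinset.erase i ⊆ T.toFinset ↔ ∀ j ∈ S, j ≠ i → j ∈ T := by
  simp only [subset_iff, mem_erase, List.mem_toFinset]
  exact ⟨fun h j a b => h ⟨b, a⟩, fun h j a => h j a.2 a.1⟩

lemma c1 : ∀ S ∈ CL, S.card = 4 ∧ (∀ i ∈ S, (∀ j ∈ S.erase i, dot (U S i) (V j) = 0) ∧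
    0 < dot (U S i) (V i)) ∧ ∀ k, k ∉ S → ∃ i ∈ S, dot (U S i) (V k) < 0 := by
  intro S hS
  obtain ⟨l, hl, rfl⟩ := List.mem_map.1 hS
  obtain ⟨h1, h2, h3, h4, -⟩ := e1 l hl
  simp only [U, lst_eq hl, mem_erase, List.mem_toFinset]
  exact ⟨by rw [List.toFinset_card_of_nodup h1, h2],
    fun i hi => ⟨fun j hj => (h3 i hi).1 j hj.2 hj.1, (h3 i hi).2⟩, h4⟩

lemma c2 : ∀ S ∈ CL, ∀ i ∈ S, ∃ T ∈ CL, (T ≠ S ∧ S.erase i ⊆ T) ∧ (∀ j ∈ T, dot (U S i) (V j) ≤ 0) ∧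
    ∀ T' ∈ CL, T' ≠ S → S.erase i ⊆ T' → T' = T := by
  intro S hS i hi
  obtain ⟨l, hl, rfl⟩ := List.mem_map.1 hS
  obtain ⟨T, t1, t2, t3, t4, t5⟩ := e2 l hl i (List.mem_toFinset.1 hi)
  refine ⟨_, List.mem_map_of_mem t1, ⟨fun h => t2 (by rw [← lst_eq t1, h, lst_eq hl]), sub.2 t3⟩,
    by simpa only [U, lst_eq hl, List.mem_toFinset] using t4, fun T' h1 h2 h3 => ?_⟩
  obtain ⟨l', hl', rfl⟩ := List.mem_map.1 h1
  rcases t5 l' hl' (sub.1 h3) with rfl | rfl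
  exacts [absurd rfl h2, rfl]

lemma c3 : ∀ S ∈ CL, S = {0, 1, 3, 4} ∨ ∃ T ∈ CL, LL.idxOf (lst T) < LL.idxOf (lst S) ∧
    (∃ i ∈ S, S.erase i ⊆ T) ∧ ∃ i ∈ T, T.erase i ⊆ S := by
  intro S hS
  obtain ⟨l, hl, rfl⟩ := List.mem_map.1 hS
  rcases e3 l hl with rfl | ⟨T, t1, t2, t3, t4⟩
  · exact Or.inl (by decide)
  · refine Or.inr ⟨_, List.mem_map_of_mem t1, by rwa [lst_eq t1, lst_eq hl], ?_⟩
    simpa only [sub, List.mem_toFinset] using And.intro t3 t4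

lemma m1 : [1, 2, 3, 9].toFinset ∈ CL := List.mem_map_of_mem (by decide)
lemma m2 : [5, 6, 7, 9].toFinset ∈ CL := List.mem_map_of_mem (by decide)
lemma m0 : [0, 1, 3, 4].toFinset ∈ CL := List.mem_map_of_mem (by decide)

lemma inM : ∀ S ∈ CL, InM V S := by
  intro S hS
  obtain ⟨h1, h2, h3⟩ := c1 S hS
  refine ⟨h1, li (U S) h2, fun k ⟨t, ht, hk⟩ => ?_⟩
  by_contra h4
  obtain ⟨i, hi, h5⟩ := h3 k h4
  have h6 := fn_sum hi (h2 i hi).1 t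
  rw [← hk, fn_col] at h6
  have h7 : (0 : ℝ) ≤ dot (U S i) (V k) :=
    h6 ▸ mul_nonneg (ht i) (by exact_mod_cast (h2 i hi).2.le)
  exact absurd (Int.cast_nonneg_iff.1 h7) h5.not_ge

theorem result : ∃ (n m : ℕ) (v : Fin m → Fin n → ℤ) (C : Finset (Finset (Fin m))),
    IsF v ∧ Pseudofan v C ∧ (∀ C', C' ⊂ C → ¬ Pseudofan v C') ∧
    ∃ S ∈ C, ∃ T ∈ C, S ≠ T ∧ (interior (cone v S) ∩ interior (cone v T)).Nonempty := by
  have h0 : InM V {0, 1, 3, 4} := inM _ m0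
  refine ⟨4, 10, V, CL.toFinset, ⟨?_, by decide, fun i j hij c hc h => ?_, ?_, by decide +kernel⟩,
    ⟨fun S hS => inM S (List.mem_toFinset.1 hS), fun k => ?_, fun S hS i hi => ?_⟩,
    fun C' hC ⟨_, p2, p3⟩ => ?_, _, List.mem_toFinset.2 m1, _, List.mem_toFinset.2 m2, by decide, _,
    int (inM _ m1) _ (c1 _ m1).2.1 ![-3, -3, -3, -2] ?_,
    int (inM _ m2) _ (c1 _ m2).2.1 ![-3, -3, -3, -2] ?_⟩
  · refine eq_top_iff.2 fun x _ => ?_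
    obtain ⟨t, rfl⟩ := spans h0 x
    exact Submodule.sum_mem _ fun i _ => Submodule.smul_mem _ _ (Submodule.subset_span ⟨i, rfl⟩)
  · obtain ⟨k, l, h1⟩ := (by decide +kernel : ∀ i j : Fin 10, i ≠ j → ∃ k l,
      V i k * V j l ≠ V i l * V j k) i j hij
    have h2 := congrFun h k
    have h3 := congrFun h l
    simp only [col, Pi.smul_apply, smul_eq_mul] at h2 h3
    apply h1
    have : (V i k : ℝ) * V j l = V i l * V j k := by rw [h2, h3]; ring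
    exact_mod_cast this
  · refine Set.eq_univ_of_forall fun x => ?_
    obtain ⟨t, rfl⟩ := spans h0 x
    obtain ⟨M, hM⟩ := (Set.finite_range fun i => |t i|).bddAbove
    have hM0 : ∀ i, |t i| ≤ M := fun i => hM ⟨i, rfl⟩
    have hM1 := (abs_nonneg _).trans (hM0 0)
    refine ⟨fun i => (if i ∈ ({0, 1, 3, 4} : Finset (Fin 10)) then t i else 0) +
      M * ![2, 4, 3, 1, 2, 2, 3, 3, 3, 1] i, fun i => ?_, ?_⟩
    · have := (abs_le.1 (hM0 i)).1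
      fin_cases i <;> simp at this ⊢ <;> linarith
    · ext k
      fin_cases k <;> simp [Fin.sum_univ_succ, col, V] <;> ring
  · obtain ⟨l, hl, h⟩ := (by decide +kernel : ∀ k, ∃ l ∈ LL, k ∈ l) k
    exact ⟨_, List.mem_toFinset.2 (List.mem_map_of_mem hl), List.mem_toFinset.2 h⟩
  · obtain ⟨T, t1, t2, t3, t4⟩ := c2 S (List.mem_toFinset.1 hS) i hi
    obtain ⟨h1, h2⟩ := (c1 S (List.mem_toFinset.1 hS)).2.1 i hi
    refine ⟨⟨T, ⟨List.mem_toFinset.2 t1, t2⟩, fun T' h => t4 T' (List.mem_toFinset.1 h.1) h.2.1 h.2.2⟩,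
      fun T' a1 a2 a3 => ⟨fn (U S i), fun j hj => by simp [fn_col, h1 j hj],
        by rw [fn_col]; exact_mod_cast h2, ?_⟩⟩
    rintro _ ⟨t, ht, rfl⟩
    rw [t4 T' (List.mem_toFinset.1 a1) a2 a3, map_sum]
    refine sum_nonpos fun j hj => ?_
    rw [map_smul, fn_col]
    exact mul_nonpos_of_nonneg_of_nonpos (ht j) (by exact_mod_cast t3 j hj)
  · have cl : ∀ S ∈ C', ∀ T ∈ CL, (∃ i ∈ S, S.erase i ⊆ T) → T ∈ C' := by
      rintro S hS T hT ⟨i, hi, h⟩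
      by_cases hTS : T = S
      · exact hTS ▸ hS
      obtain ⟨T', ⟨a1, a2, a3⟩, -⟩ := (p3 S hS i hi).1
      obtain ⟨R, -, -, -, r⟩ := c2 S (List.mem_toFinset.1 (hC.1 hS)) i hi
      rwa [r T hT hTS h, ← r T' (List.mem_toFinset.1 (hC.1 a1)) a2 a3]
    have key : ∀ k, ∀ S ∈ CL, LL.idxOf (lst S) = k → (S ∈ C' ↔ {0, 1, 3, 4} ∈ C') := by
      intro k
      induction k using Nat.strong_induction_on with
      | _ k ih =>
        intro S hS hk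
        rcases c3 S hS with rfl | ⟨T, hT, b1, b2, b3⟩
        · rfl
        · rw [← ih _ (hk ▸ b1) T hT rfl]
          exact ⟨fun h => cl S h T hT b2, fun h => cl T h S hS b3⟩
    obtain ⟨S, hS, -⟩ := p2 0
    have h1 := (key _ S (List.mem_toFinset.1 (hC.1 hS)) rfl).1 hS
    exact hC.2 fun T hT => (key _ T (List.mem_toFinset.1 hT) rfl).2 h1
  · rw [U, lst_eq (by decide)]
    decide +kernel
  · rw [U, lst_eq (by decide)]
    decide +kernel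

end Pool.Agent.Results.MP_d9dcf6_co.Cex
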